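import Pool.Agent.N436.DF.Stm3

/-!
# DH/29 (helper833): `S3_t2g`, replacing a set with one boundary vertex by a vertex
-/

set_option autoImplicit false

namespace Pool.Agent.N833.DF

open Finset Pool.Agent.N436.DF

variable {V : Type} [DecidableEq V]

/-- override the capacities at `v` -/
def ov (H : Hub V) (v : V) (t : ℤ) : Hub V where
  c i u := if u = v then (if i then 1 else t) else H.c i u
  r := H.r
  m := H.m

theorem ov_ok {H : Hub V} (h : Ok P13 H) (v : V) {t : ℤ} (h0 : 0 ≤ t) (h1 : t ≤ 1) :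
    Ok P13 (ov H v t) where
  c_ge i u := by
    show -1 ≤ if u = v then (if i then 1 else t) else H.c i u
    have := h.c_ge i u
    split_ifs <;> omega
  c1_le u := by
    show (if u = v then (if true then 1 else t) else H.c true u) ≤ P13.j
    have := h.c1_le u
    have e : P13.j = 1 := rfl
    rw [e] at this ⊢
    split_ifs <;> simp_all
  c2_le u := by
    show (if u = v then (if false then 1 else t) else H.c false u) ≤ P13.k
    have := h.c2_le u
    have e : P13.k = 3 := rfl
    rw [e] at this ⊢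
    split_ifs
    · simp at *
    · omega
    · exact this
  r01 := h.r01
  rsymm := h.rsymm
  r0 := h.r0
  m_nn := h.m_nn
  msymm := h.msymm
  m0 := h.m0

theorem rho_ov (H : Hub V) (v : V) (t : ℤ) {Y : Finset V} (hv : v ∉ Y) :
    rho P13 (ov H v t) Y = rho P13 H Y := by
  unfold rho
  have h1 : ∑ u ∈ Y, wt P13 (ov H v t) u = ∑ u ∈ Y, wt P13 H u := by
    refine sum_congr rfl fun u hu => ?_
    have huv : u ≠ v := fun h => hv (h ▸ hu)
    unfold wt ov
    simp [huv]
  rw [h1]
  rfl

theorem hp_ov (H : Hub V) (v : V) (t : ℤ) {Y : Finset V} (hv : v ∉ Y) :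
    hp (ov H v t) Y = hp H Y := by
  unfold hp
  rw [rho_ov H v t hv]

omit [DecidableEq V] in
theorem r_nn {H : Hub V} (h : Ok P13 H) (x z : V) : 0 ≤ H.r x z := by
  rcases h.r01 x z with h | h <;> rw [h]
  exact zero_le_one

omit [DecidableEq V] in
theorem sv_nn {H : Hub V} (h : Ok P13 H) (f : V → Bool) (s : V → V → ℤ)
    (hs : ∀ x z, 0 ≤ s x z) (x z : V) : 0 ≤ sv H f s x z := by
  have h1 := r_nn h x z
  have h2 := h.m_nn x z
  have h3 := hs x z
  have h4 : 0 ≤ min (H.m x z) (s x z) := le_min h2 h3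
  unfold sv
  split_ifs <;> omega

/-- no colouring of `X` gives `v` the colour 2 with two spare units -/
theorem factA (hb : S3_base) (hk : S3_kill) {H : Hub V} {S X : Finset V} {v y₁ y₂ : V} {ν : ℤ}
    (T : T2 H S X v y₁ y₂ ν) {f : V → Bool} {p : V → V → ℤ} (hc : ColBy H X f p)
    (hf : f v = false) (hl : load H X f p v + 2 ≤ H.c false v) : False := by
  obtain ⟨-, -, -, -, b5⟩ := hb V H T.mc.ok
  obtain ⟨b6, -⟩ := b5 S T.mc
  obtain ⟨s, hs⟩ : ∃ s : V → V → ℤ, ∀ x z, s x z =
    if x = v ∧ (z = y₁ ∨ z = y₂) then 1 else 0 := ⟨_, fun _ _ => rfl⟩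
  have hs0 : ∀ x z, 0 ≤ s x z := by
    intro x z
    rw [hs]
    split_ifs <;> omega
  have hy1 := T.hy₁
  have hy2 := T.hy₂
  have hsum : ∑ z ∈ S \ X, s v z = 2 := by
    have h1 : ∀ z ∈ S \ X, s v z = (if z = y₁ then 1 else 0) + (if z = y₂ then 1 else 0) := by
      intro z _
      rw [hs]
      by_cases h1 : z = y₁
      · have h2 : z ≠ y₂ := fun h => T.ne (h1.symm.trans h)
        have h3 : y₁ ≠ y₂ := T.ne
        simp [h1, h3]
      · by_cases h2 : z = y₂
        · have h3 : y₂ ≠ y₁ := T.ne.symm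
          simp [h2, h3]
        · simp [h1, h2]
    rw [sum_congr rfl h1, sum_add_distrib, sum_ite_eq' , sum_ite_eq', if_pos hy1, if_pos hy2]
    norm_num
  obtain ⟨C, hCs, hCn, hCh⟩ := hk V H S X f p s T.mc T.sub ⟨v, T.hv⟩ hc hs0 (by
    intro x hx
    by_cases hxv : x = v
    · rw [hxv, hsum, hf]
      exact hl
    · have : ∑ z ∈ S \ X, s x z = 0 := by
        refine sum_eq_zero fun z _ => ?_
        rw [hs, if_neg (fun h => hxv h.1)]
      rw [this, add_zero]
      exact hc.cap x hx)
  rw [T.hν] at hCh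
  have hle := T.le
  have hCS : X ∪ C ⊆ S := union_subset T.sub (hCs.trans sdiff_subset)
  have hvu : v ∈ X ∪ C := mem_union_left _ T.hv
  have hnn : ∀ x ∈ X, 0 ≤ ∑ z ∈ C, sv H f s x z := fun x _ =>
    sum_nonneg fun z _ => sv_nn T.mc.ok f s hs0 x z
  have hbig : ∑ z ∈ C, sv H f s v z ≤ ∑ x ∈ X, ∑ z ∈ C, sv H f s x z :=
    single_le_sum (f := fun x => ∑ z ∈ C, sv H f s x z) hnn T.hv
  have hsvy : ∀ y, (y = y₁ ∨ y = y₂) → H.r v y = 1 → 9 ≤ sv H f s v y := by
    intro y hy hr
    have h1 : s v y = 1 := by rw [hs, if_pos ⟨rfl, hy⟩]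
    have h2 := T.mc.ok.m_nn v y
    have h4 : 0 ≤ min (H.m v y) 1 := le_min h2 zero_le_one
    unfold sv
    rw [h1, hr, hf]
    simp only [le_refl, if_true, Bool.false_eq_true, if_false]
    omega
  have h91 := hsvy y₁ (Or.inl rfl) T.r₁
  have h92 := hsvy y₂ (Or.inr rfl) T.r₂
  have hnotX1 : y₁ ∉ X := (mem_sdiff.1 hy1).2
  have hnotX2 : y₂ ∉ X := (mem_sdiff.1 hy2).2
  have hin : ∀ y, y ∈ S → y ∉ X → y ∉ C → y ∈ S \ (X ∪ C) := by
    intro y h1 h2 h3
    rw [mem_sdiff, mem_union]
    exact ⟨h1, fun h => h.elim h2 h3⟩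
  by_cases c1 : y₁ ∈ C
  · by_cases c2 : y₂ ∈ C
    · have h18 : 18 ≤ ∑ z ∈ C, sv H f s v z := by
        have h1 : ∑ z ∈ ({y₁, y₂} : Finset V), sv H f s v z ≤ ∑ z ∈ C, sv H f s v z := by
          refine sum_le_sum_of_subset_of_nonneg ?_ fun z _ _ => sv_nn T.mc.ok f s hs0 v z
          intro z hz
          rw [mem_insert, mem_singleton] at hz
          rcases hz with h | h <;> rw [h] <;> assumption
        rw [sum_pair T.ne] at h1
        linarith
      have := b6 (X ∪ C) hCS ⟨v, hvu⟩
      linarith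
    · have h9 : 9 ≤ ∑ z ∈ C, sv H f s v z := h91.trans
        (single_le_sum (f := fun z => sv H f s v z) (fun z _ => sv_nn T.mc.ok f s hs0 v z) c1)
      have := T.rb10 (X ∪ C) hCS ⟨v, hvu, y₂, hin y₂ (mem_sdiff.1 hy2).1 hnotX2 c2, T.r₂⟩
      linarith
  · by_cases c2 : y₂ ∈ C
    · have h9 : 9 ≤ ∑ z ∈ C, sv H f s v z := h92.trans
        (single_le_sum (f := fun z => sv H f s v z) (fun z _ => sv_nn T.mc.ok f s hs0 v z) c2)
      have := T.rb10 (X ∪ C) hCS ⟨v, hvu, y₁, hin y₁ (mem_sdiff.1 hy1).1 hnotX1 c1, T.r₁⟩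
      linarith
    · have h0 := hnn v T.hv
      have := T.min (X ∪ C) hCS ⟨v, hvu, y₁, hin y₁ (mem_sdiff.1 hy1).1 hnotX1 c1, y₂,
        hin y₂ (mem_sdiff.1 hy2).1 hnotX2 c2, T.ne, T.r₁, T.r₂⟩
      linarith

/-- reservations at `v` only -/
theorem stv (hb : S3_base) (hs : S3_state) {H : Hub V} {S X : Finset V} {v y₁ y₂ : V} {ν : ℤ}
    (T : T2 H S X v y₁ y₂ ν) {t u : ℤ} (ht : 0 ≤ t) (hu : 0 ≤ u) (hc : 5 * t + 3 * u ≤ ν + 2) :
    ∃ f p, ColBy H X f p ∧ 0 ≤ load H X f p v ∧
      load H X f p v + (if f v then t else u) ≤ H.c (f v) v := by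
  obtain ⟨-, -, -, -, b5⟩ := hb V H T.mc.ok
  obtain ⟨b6, -⟩ := b5 S T.mc
  have hXS : X ≠ S := by
    intro h
    have := T.hy₁
    rw [h, sdiff_self] at this
    exact notMem_empty _ this
  obtain ⟨f, p, h1, h2⟩ := hs V H S X (fun i x => if x = v then (if i then t else u) else 0)
    T.mc T.sub hXS (by
      intro i x
      split_ifs <;> first | exact ht | exact hu | exact le_rfl) (by
      intro C hC hCn
      have hcost : cost (fun i x => if x = v then (if i then t else u) else 0) C =
          if v ∈ C then 5 * t + 3 * u else 0 := by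
        unfold cost
        have : ∀ z ∈ C, (5 * (fun (i : Bool) (x : V) => if x = v then (if i then t else u) else 0)
            true z + 3 * (fun (i : Bool) (x : V) => if x = v then (if i then t else u) else 0)
            false z) = if z = v then 5 * t + 3 * u else 0 := by
          intro z _
          by_cases hz : z = v
          · simp [hz]
          · simp [hz]
        rw [sum_congr rfl this, sum_ite_eq']
      rw [hcost]
      split_ifs with hvC
      · have hy1 := mem_sdiff.1 T.hy₁
        have hy2 := mem_sdiff.1 T.hy₂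
        have := T.min C (hC.trans T.sub) ⟨v, hvC, y₁, mem_sdiff.2 ⟨hy1.1, fun h => hy1.2 (hC h)⟩,
          y₂, mem_sdiff.2 ⟨hy2.1, fun h => hy2.2 (hC h)⟩, T.ne, T.r₁, T.r₂⟩
        linarith
      · have := b6 C (hC.trans T.sub) hCn
        linarith)
  refine ⟨f, p, h1, (h2 v T.hv).2, ?_⟩
  have h3 := (h2 v T.hv).1
  simp only [if_true] at h3
  exact h3

theorem t2g (hb : S3_base) (hs : S3_state) (hg : S3_glue) (hk : S3_kill) : S3_t2g := by
  intro V _ H S X v y₁ y₂ ν T he hX2
  obtain ⟨b1, b2, -, -, b5⟩ := hb V H T.mc.ok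
  obtain ⟨b6, -⟩ := b5 S T.mc
  have hok := T.mc.ok
  -- the only boundary vertex is `v`
  have hzero : ∀ x ∈ X, x ≠ v → ∀ z ∈ S \ X, H.r x z = 0 ∧ H.m x z = 0 := by
    intro x hx hxv z hz
    have h1 : ∀ x ∈ X.erase v, 0 ≤ ∑ z ∈ S \ X, (H.r x z + H.m x z) := fun x _ =>
      sum_nonneg fun z _ => add_nonneg (r_nn hok x z) (hok.m_nn x z)
    have h2 : ∑ z ∈ S \ X, (H.r x z + H.m x z) ≤ 0 :=
      (single_le_sum (f := fun x => ∑ z ∈ S \ X, (H.r x z + H.m x z)) h1
        (mem_erase.2 ⟨hxv, hx⟩)).trans he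
    have h3 : H.r x z + H.m x z ≤ 0 :=
      (single_le_sum (f := fun z => H.r x z + H.m x z)
        (fun z _ => add_nonneg (r_nn hok x z) (hok.m_nn x z)) hz).trans h2
    have h4 := r_nn hok x z
    have h5 := hok.m_nn x z
    constructor <;> omega
  have hν10 : 10 ≤ ν := by
    rw [← T.hν]
    exact T.rb10 X T.sub ⟨v, T.hv, y₁, T.hy₁, T.r₁⟩
  have hν13 := T.le
  have hj : ∀ u, H.c true u ≤ 1 := hok.c1_le
  -- state T
  obtain ⟨fT, pT, cT, lT0, lT⟩ := stv hb hs T (t := 1) (u := 2) (by norm_num) (by norm_num)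
    (by linarith)
  have hfT : fT v = true := by
    by_contra h
    have h' : fT v = false := by simpa using h
    rw [h'] at lT
    simp only [Bool.false_eq_true, if_false] at lT
    exact factA hb hk T cT h' lT
  rw [hfT] at lT
  simp only [if_true] at lT
  have hc1 := hj v
  -- state F
  obtain ⟨s', hs0, hs1, hνs, fF, pF, cF, hfF, lF⟩ : ∃ s' : ℤ, 0 ≤ s' ∧ s' ≤ 1 ∧ ν ≤ 10 + 3 * s' ∧
      ∃ f p, ColBy H X f p ∧ f v = false ∧ load H X f p v + s' ≤ H.c false v := by
    by_cases h10 : ν = 10
    · obtain ⟨f, p, c1, c2, c3⟩ := stv hb hs T (t := 2) (u := 0) (by norm_num) (by norm_num)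
        (by linarith)
      have hf : f v = false := by
        by_contra h
        have h' : f v = true := by simpa using h
        rw [h'] at c3
        simp only [if_true] at c3
        linarith
      rw [hf] at c3
      simp only [Bool.false_eq_true, if_false] at c3
      exact ⟨0, le_rfl, by norm_num, by linarith, f, p, c1, hf, c3⟩
    · have h11 : 11 ≤ ν := by omega
      obtain ⟨f, p, c1, c2, c3⟩ := stv hb hs T (t := 2) (u := 1) (by norm_num) (by norm_num)
        (by linarith)
      have hf : f v = false := by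
        by_contra h
        have h' : f v = true := by simpa using h
        rw [h'] at c3
        simp only [if_true] at c3
        linarith
      rw [hf] at c3
      simp only [Bool.false_eq_true, if_false] at c3
      exact ⟨1, by norm_num, le_rfl, by linarith, f, p, c1, hf, c3⟩
  have hov := ov_ok hok v hs0 hs1
  obtain ⟨d1, d2, -, d4, -⟩ := hb V (ov H v s') hov
  have hvS : v ∈ S := T.sub T.hv
  have hvB : v ∉ S \ X := fun h => (mem_sdiff.1 h).2 T.hv
  have hSS : insert v (S \ X) ⊆ S := by
    intro z hz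
    rw [mem_insert] at hz
    rcases hz with h | h
    · rw [h]; exact hvS
    · exact (mem_sdiff.1 h).1
  have hcard : (insert v (S \ X)).card < S.card := by
    rw [card_insert_of_notMem hvB, card_sdiff_of_subset T.sub]
    have := card_le_card T.sub
    omega
  have heE : eE (ov H v s') (insert v (S \ X)) ≤ eE H S := by
    unfold eE
    calc ∑ u ∈ insert v (S \ X), ∑ w ∈ insert v (S \ X), (ov H v s').r u w
        ≤ ∑ u ∈ insert v (S \ X), ∑ w ∈ S, H.r u w := sum_le_sum fun u _ =>
          sum_le_sum_of_subset_of_nonneg hSS fun w _ _ => r_nn hok u w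
      _ ≤ _ := sum_le_sum_of_subset_of_nonneg hSS fun u _ _ => sum_nonneg fun w _ => r_nn hok u w
  have hhyp : Hyp P13 (ov H v s') (insert v (S \ X)) := by
    intro Y hY hYn
    have hgoal : -2 ≤ hp (ov H v s') Y := by
      by_cases hvY : v ∈ Y
      · obtain ⟨Y', hY'⟩ : ∃ Y', Y' = Y.erase v := ⟨_, rfl⟩
        have e1 : Y = {v} ∪ Y' := by
          rw [hY', ← insert_eq, insert_erase hvY]
        have hvY' : v ∉ Y' := by rw [hY']; exact notMem_erase v Y
        have hY'B : Y' ⊆ S \ X := by
          intro z hz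
          rw [hY', mem_erase] at hz
          have := hY hz.2
          rw [mem_insert] at this
          exact this.resolve_left hz.1
        have hdis : Disjoint ({v} : Finset V) Y' := disjoint_singleton_left.2 hvY'
        have hdisX : Disjoint X Y' := by
          rw [disjoint_left]
          intro z h1 h2
          exact (mem_sdiff.1 (hY'B h2)).2 h1
        rw [e1, d2 {v} Y' hdis, d4 v, hp_ov H v s' hvY']
        have e2 : (ov H v s').c true v = 1 := by simp [ov]
        have e3 : (ov H v s').c false v = s' := by simp [ov]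
        have e4 : rr (ov H v s') {v} Y' = rr H X Y' := by
          unfold rr
          rw [sum_singleton]
          show ∑ z ∈ Y', H.r v z = ∑ x ∈ X, ∑ z ∈ Y', H.r x z
          have e8 : ∑ x ∈ X, ∑ z ∈ Y', H.r x z = ∑ z ∈ Y', H.r v z :=
            sum_eq_single_of_mem v T.hv fun x hx hxv =>
              sum_eq_zero fun z hz => (hzero x hx hxv z (hY'B hz)).1
          exact e8.symm
        have e5 : mm (ov H v s') {v} Y' = mm H X Y' := by
          unfold mm
          rw [sum_singleton]
          show ∑ z ∈ Y', H.m v z = ∑ x ∈ X, ∑ z ∈ Y', H.m x z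
          have e8 : ∑ x ∈ X, ∑ z ∈ Y', H.m x z = ∑ z ∈ Y', H.m v z :=
            sum_eq_single_of_mem v T.hv fun x hx hxv =>
              sum_eq_zero fun z hz => (hzero x hx hxv z (hY'B hz)).2
          exact e8.symm
        rw [e2, e3, e4, e5]
        have e6 := b2 X Y' hdisX
        have e7 := b6 (X ∪ Y') (union_subset T.sub (hY'B.trans sdiff_subset))
          ⟨v, mem_union_left _ T.hv⟩
        rw [T.hν] at e6
        linarith
      · rw [hp_ov H v s' hvY]
        exact b6 Y (hY.trans hSS) hYn
    have hP : P13.b = 3 := rfl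
    rw [d1, hP]
    linarith
  obtain ⟨G, q, hG⟩ := T.mc.ih2 (ov H v s') (insert v (S \ X)) hov hhyp heE hcard
  -- loads in the new system
  have hload : ∀ z ∈ S \ X, load (ov H v s') (insert v (S \ X)) G q z =
      (if G z = G v then H.r v z else q z v) + load H (S \ X) G q z := by
    intro z hz
    unfold load
    rw [sum_insert hvB]
    congr 1
    show (if G z = G v then H.r z v else q z v) = _
    rw [hok.rsymm z v]
  have hloadv : load (ov H v s') (insert v (S \ X)) G q v =
      ∑ z ∈ S \ X, (if G v = G z then H.r v z else q v z) := by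
    unfold load
    rw [sum_insert hvB, if_pos rfl]
    show H.r v v + _ = _
    rw [hok.r0, zero_add]
    rfl
  have hcapz : ∀ z ∈ S \ X, load H (S \ X) G q z + (if G z = G v then H.r v z else q z v) ≤
      H.c (G z) z := by
    intro z hz
    have h1 := hG.cap z (mem_insert_of_mem hz)
    rw [hload z hz] at h1
    have hzv : z ≠ v := fun h => hvB (h ▸ hz)
    have h2 : (ov H v s').c (G z) z = H.c (G z) z := by simp [ov, hzv]
    rw [h2] at h1
    linarith
  have hcapv : ∑ z ∈ S \ X, (if G v = G z then H.r v z else q v z) ≤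
      (ov H v s').c (G v) v := by
    rw [← hloadv]
    exact hG.cap v (mem_insert_self _ _)
  have hgB : ColBy H (S \ X) G q := by
    refine ⟨hG.nn, fun z hz w hw hzw => hG.pay z (mem_insert_of_mem hz) w (mem_insert_of_mem hw)
      hzw, fun z hz => ?_⟩
    have h1 := hcapz z hz
    have h2 : 0 ≤ (if G z = G v then H.r v z else q z v) := by
      split_ifs
      · exact r_nn hok v z
      · exact hG.nn z v
    linarith
  -- the colouring of `X`
  obtain ⟨f, p, hc, hfv, hl⟩ : ∃ f p, ColBy H X f p ∧ f v = G v ∧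
      load H X f p v + (ov H v s').c (G v) v ≤ H.c (G v) v := by
    cases hGv : G v with
    | true =>
      refine ⟨fT, pT, cT, hfT, ?_⟩
      have e2 : (ov H v s').c true v = 1 := by simp [ov]
      rw [e2]
      linarith
    | false =>
      refine ⟨fF, pF, cF, hfF, ?_⟩
      have e3 : (ov H v s').c false v = s' := by simp [ov]
      rw [e3]
      exact lF
  obtain ⟨F, P', hF, -⟩ := hg V H S X f G p q
    (fun x z => if x = v then (if G v = G z then H.r v z else q v z) else 0)
    (fun z x => if x = v then (if G z = G v then H.r v z else q z v) else 0) hok T.sub hc hgB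
    (by
      intro x z
      split_ifs
      · exact r_nn hok v z
      · exact hG.nn v z
      · exact le_rfl)
    (by
      intro z x
      split_ifs
      · exact r_nn hok v z
      · exact hG.nn z v
      · exact le_rfl)
    (by
      intro x hx z hz hxz
      by_cases hxv : x = v
      · subst hxv
        rw [hfv] at hxz
        simp [hxz]
      · simp only [if_neg hxv]
        rw [(hzero x hx hxv z hz).1]
        exact ⟨le_rfl, le_rfl⟩)
    (by
      intro x hx z hz hxz
      by_cases hxv : x = v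
      · subst hxv
        rw [hfv] at hxz
        have hzx : G z ≠ G x := fun h => hxz h.symm
        simp only [if_true, if_neg hxz, if_neg hzx]
        exact hG.pay x (mem_insert_self _ _) z (mem_insert_of_mem hz) hxz
      · simp only [if_neg hxv]
        rw [(hzero x hx hxv z hz).2]
        norm_num)
    (by
      intro x hx
      by_cases hxv : x = v
      · subst hxv
        simp only [if_true]
        rw [hfv]
        linarith
      · simp only [if_neg hxv, sum_const_zero, add_zero]
        exact hc.cap x hx)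
    (by
      intro z hz
      rw [sum_ite_eq' X v, if_pos T.hv]
      exact hcapz z hz)
  exact T.mc.ncol ⟨F, P', hF⟩

end Pool.Agent.N833.DF
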